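import Pool.Agent.Work.MP_2eb999_an.NormP

set_option autoImplicit false

/-!
# A conditional basis with Property (A) in a renorming of `ℓ₂`

For `𝕜 = ℝ` or `ℂ` we construct an equivalent norm on `ℓ₂` and a conditional Schauder basis with
Property (A) for that norm.

Construction.  The set `ℕ` is cut into consecutive blocks `σ_j` with `4^(j+1)` elements,
`v_j(a) = 2^{-(j+1)} ∑_{n ∈ σ_j} (-1)^n a_n`, and `Φ_i(a) = ∑_{j ≤ i} α_{i-j} v_j(a)` where
`α ≥ 0`, `∑ (n+1) α_n² ≤ 1/16`, `∑ α_n = ∞`.  The Hilbert norm `(‖a‖₂² + ‖Φ(a)‖₂²)^{1/2}` has the unit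
vectors as a conditional basis.  The norm
`‖a‖₂ + sup_A ( |A|^{-1/2} ∑_{n ∈ A} |a_n| + ‖Φ(ψ_{|A|} · a 1_{A^c})‖₂ )`,
the supremum being over all finite sets `A` and `ψ_m` being the block weight
`max(0, min(1, 2 - √m / 2^j))`, is equivalent to it; adding to `A` a coordinate of maximal modulus
never decreases the expression in brackets, and this gives Property (A) exactly.
-/

namespace Pool.Agent.Results.MP_2eb999_an.ConditionalPropertyA

open Filter Topology
open Pool.Agent.Work.MP_2eb999_an

/-- The coefficient sequence `b` is a greedy rearrangement of the coefficient sequence `a`: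
there is a bijection `π` of `ℕ` with `|b_{π(n)}| = |a_n|` for all `n`, and with `π(k) = k` and
`b_k = a_k` for every `k` such that `0 < |a_k| < sup_n |a_n|`. -/
def IsGreedyRearrangement {𝕜 : Type*} [RCLike 𝕜] (a b : ℕ → 𝕜) : Prop :=
  ∃ π : Equiv.Perm ℕ, (∀ n, ‖b (π n)‖ = ‖a n‖) ∧
    ∀ k, 0 < ‖a k‖ → ‖a k‖ < ⨆ n, ‖a n‖ → π k = k ∧ b k = a k

section
variable {𝕜 X : Type*} [RCLike 𝕜] [NormedAddCommGroup X] [NormedSpace 𝕜 X]

/-- The seminorm `p` is a norm equivalent to the norm of `X`. -/
def IsEquivalentNorm (p : Seminorm 𝕜 X) : Prop :=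
  ∃ c C : ℝ, 0 < c ∧ ∀ x, c * ‖x‖ ≤ p x ∧ p x ≤ C * ‖x‖

/-- The Schauder basis `b` is conditional: the expansion of some vector does not converge
unconditionally. -/
def IsConditional (b : SchauderBasis 𝕜 X) : Prop :=
  ∃ x, ¬ Summable (fun n => b.coord n x • b n)

/-- The Schauder basis `b` has Property (A) for the (semi)norm `p`. -/
def HasPropertyA (p : Seminorm 𝕜 X) (b : SchauderBasis 𝕜 X) : Prop :=
  ∀ x y, IsGreedyRearrangement (fun n => b.coord n x) (fun n => b.coord n y) → p x = p y

variable (𝕜 X) in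
/-- Some norm equivalent to the norm of `X` admits a conditional Schauder basis with
Property (A). -/
def HasConditionalPropertyARenorming : Prop :=
  ∃ (p : Seminorm 𝕜 X) (b : SchauderBasis 𝕜 X),
    IsEquivalentNorm p ∧ IsConditional b ∧ HasPropertyA p b

end

theorem result (𝕜 : Type*) [RCLike 𝕜] :
    HasConditionalPropertyARenorming 𝕜 (lp (fun _ : ℕ => 𝕜) 2) := by
  classical
  -- a Hilbert basis of `V0`
  have hli : LinearIndependent 𝕜 (eV (𝕜 := 𝕜)) := (basisV 𝕜).linearIndependent
  have hon : Orthonormal 𝕜 (InnerProductSpace.gramSchmidtNormed 𝕜 (eV (𝕜 := 𝕜))) :=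
    InnerProductSpace.gramSchmidtNormed_orthonormal hli
  have hsp : ⊤ ≤ (Submodule.span 𝕜 (Set.range
      (InnerProductSpace.gramSchmidtNormed 𝕜 (eV (𝕜 := 𝕜))))).topologicalClosure := by
    rw [InnerProductSpace.span_gramSchmidtNormed_range, InnerProductSpace.span_gramSchmidt,
      dense_span_eV]
  let hb : HilbertBasis ℕ 𝕜 (V0 𝕜) := HilbertBasis.mk hon hsp
  let U : V0 𝕜 ≃ₗᵢ[𝕜] lp (fun _ : ℕ => 𝕜) 2 := hb.repr
  let b : SchauderBasis 𝕜 (lp (fun _ : ℕ => 𝕜) 2) :=
    { basis := fun n => U (eV n)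
      coord := fun n => (coordV n).comp (U.symm.toContinuousLinearEquiv : _ →L[𝕜] V0 𝕜)
      ortho := fun i j => by
        have := (basisV 𝕜).ortho i j
        change coordV i (U.symm (U (eV j))) = _
        rw [U.symm_apply_apply]
        exact this
      expansion := fun x => by
        have h1 := (basisV 𝕜).expansion (U.symm x)
        rw [HasSum, SummationFilter.conditional_filter_eq_map_range, tendsto_map'_iff] at h1 ⊢
        have h2 := (U.continuous.tendsto (U.symm x)).comp h1
        rw [U.apply_symm_apply] at h2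
        refine h2.congr (fun N => ?_)
        simp only [Function.comp]
        rw [map_sum]
        apply Finset.sum_congr rfl
        intro n _
        rw [map_smul]
        rfl }
  refine ⟨(pV 𝕜).comp (U.symm.toLinearEquiv : _ →ₗ[𝕜] V0 𝕜), b, ⟨1, 4, one_pos, ?_⟩, ?_, ?_⟩
  · intro x
    have hx : ‖U.symm x‖ = ‖x‖ := U.symm.norm_map x
    constructor
    · rw [one_mul, ← hx]
      exact le_pV (U.symm x)
    · rw [← hx]
      exact pV_le (U.symm x)
  · obtain ⟨x, hx⟩ := conditionalV 𝕜
    refine ⟨U x, fun hsum => hx ?_⟩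
    have h1 := hsum.map U.symm U.symm.continuous
    refine h1.congr (fun n => ?_)
    change U.symm (coordV n (U.symm (U x)) • U (eV n)) = _
    rw [U.symm_apply_apply, map_smul, U.symm_apply_apply]
  · intro x y hxy
    exact pV_greedy (x := U.symm x) (y := U.symm y) hxy

end Pool.Agent.Results.MP_2eb999_an.ConditionalPropertyA
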